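import Mathlib

/-!
# Weighted graphs, lazy random walk and nets: definitions (network part for MP_37d33d_gt)

`c x y` is the (symmetric, non negative) weight of the pair `x, y` of vertices, `om c x` the weight of the vertex `x`.
-/

set_option autoImplicit false

namespace Pool.Agent.NW

open Finset

/-- weight of a vertex -/
noncomputable def om {V : Type} [Fintype V] (c : V → V → ℝ) (x : V) : ℝ := ∑ y, c x y

/-- weight of a set of vertices -/
noncomputable def vol {V : Type} [Fintype V] (c : V → V → ℝ) (A : Finset V) : ℝ := ∑ x ∈ A, om c x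

/-- weight of the pairs which leave `A` -/
noncomputable def cut {V : Type} [Fintype V] [DecidableEq V] (c : V → V → ℝ) (A : Finset V) : ℝ :=
  ∑ x ∈ A, ∑ y ∈ Aᶜ, c x y

/-- `A` is connected (the empty set is connected) -/
def CN {V : Type} (c : V → V → ℝ) (A : Finset V) : Prop :=
  ∀ x ∈ A, ∀ y ∈ A, Relation.ReflTransGen (fun a b => a ∈ A ∧ b ∈ A ∧ 0 < c a b) x y

/-- standing hypotheses: symmetric weights, vertex weights in `[1, u]`, conductance at least `ψ`, at most three
neighbours -/
structure Good {V : Type} [Fintype V] [DecidableEq V] (c : V → V → ℝ) (u ψ : ℝ) : Prop where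
  nn : ∀ x y, 0 ≤ c x y
  symm : ∀ x y, c x y = c y x
  one_le : ∀ x, 1 ≤ om c x
  le_u : ∀ x, om c x ≤ u
  ψpos : 0 < ψ
  ψle : ψ ≤ 1
  cond : ∀ A : Finset V, 2 * vol c A ≤ vol c univ → ψ * vol c A ≤ cut c A
  conn : CN c univ
  deg : ∀ x, (univ.filter (fun y => y ≠ x ∧ 0 < c x y)).card ≤ 3

/-- one step of the lazy random walk -/
noncomputable def P {V : Type} [Fintype V] [DecidableEq V] (c : V → V → ℝ) (x y : V) : ℝ :=
  c x y / (2 * om c x) + if x = y then 1 / 2 else 0

/-- `s` steps of the lazy random walk -/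
noncomputable def pw {V : Type} [Fintype V] [DecidableEq V] (c : V → V → ℝ) : ℕ → V → V → ℝ
  | 0, x, y => if x = y then 1 else 0
  | (s + 1), x, y => ∑ z, P c x z * pw c s z y

/-- weighted number of visits in `v` of the walks of length `t` which start in `T` -/
noncomputable def q {V : Type} [Fintype V] [DecidableEq V] (c : V → V → ℝ) (t : ℕ) (T : Finset V) (v : V) : ℝ :=
  ∑ s ∈ range (t + 1), ∑ x ∈ T, om c x * pw c s x v

/-- the same for a set of vertices -/
noncomputable def qq {V : Type} [Fintype V] [DecidableEq V] (c : V → V → ℝ) (t : ℕ) (T A : Finset V) : ℝ :=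
  ∑ v ∈ A, q c t T v

/-- `p 0, ..., p n` is a walk (standing still is allowed) -/
def Walk {V : Type} (c : V → V → ℝ) (n : ℕ) (p : ℕ → V) : Prop :=
  ∀ s < n, p s = p (s + 1) ∨ 0 < c (p s) (p (s + 1))

/-- labels of hubs -/
abbrev Lab (r B : ℕ) : Type := Fin r → Fin B

/-- Hamming distance one -/
def Adj1 {r B : ℕ} (g g' : Lab r B) : Prop := ∃ k, g k ≠ g' k ∧ ∀ j, j ≠ k → g j = g' j

/-- The network: disjoint connected centres `C g` of weight at most `w0`, linked for all pairs of labels at Hamming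
distance one, and disjoint connected satellites `S i` covering the rest, every satellite being adjacent to the centre of
its owner, the total weight of a centre and its satellites being at most `w1`. -/
structure Net {V : Type} [Fintype V] [DecidableEq V] (c : V → V → ℝ) (r B : ℕ) (w0 w1 : ℝ) where
  C : Lab r B → Finset V
  ι : Type
  fι : Fintype ι
  S : ι → Finset V
  own : ι → Lab r B
  Cdis : ∀ g g', g ≠ g' → Disjoint (C g) (C g')
  Ccn : ∀ g, CN c (C g)
  Cne : ∀ g, (C g).Nonempty
  link : ∀ g g', Adj1 g g' → ∃ x ∈ C g, ∃ y ∈ C g', 0 < c x y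
  Sdis : ∀ i j, i ≠ j → Disjoint (S i) (S j)
  SC : ∀ i g, Disjoint (S i) (C g)
  Scn : ∀ i, CN c (S i)
  Sne : ∀ i, (S i).Nonempty
  cover : ∀ v, (∃ g, v ∈ C g) ∨ ∃ i, v ∈ S i
  att : ∀ i, ∃ x ∈ S i, ∃ y ∈ C (own i), 0 < c x y
  wC : ∀ g, vol c (C g) ≤ w0
  wS : ∀ g, vol c (C g) + ∑ i, Set.indicator {i | own i = g} (fun i => vol c (S i)) i ≤ w1

end Pool.Agent.NW
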