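import Pool.Agent.NW.Defs

/-!
# NW/N0Facts: elementary facts on the lazy walk (statements helper76, proofs helper18)
-/

set_option autoImplicit false

namespace Pool.Agent.NW

open Finset

variable {V : Type} [Fintype V] [DecidableEq V] {c : V → V → ℝ} {u ψ : ℝ}

theorem om_pos (hG : Good c u ψ) (x : V) : 0 < om c x := lt_of_lt_of_le one_pos (hG.one_le x)

theorem om_le_W (hG : Good c u ψ) (x : V) : om c x ≤ vol c univ := by
  unfold vol
  exact Finset.single_le_sum (f := fun x => om c x) (fun y _ => (om_pos hG y).le) (Finset.mem_univ x)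

theorem P_nonneg (hG : Good c u ψ) (x y : V) : 0 ≤ P c x y := by
  unfold P
  have h1 := hG.nn x y
  have h2 := om_pos hG x
  split_ifs <;> positivity

theorem P_sum (hG : Good c u ψ) (x : V) : ∑ y, P c x y = 1 := by
  unfold P
  have h2 := om_pos hG x
  rw [Finset.sum_add_distrib, ← Finset.sum_div]
  have h3 : ∑ y, c x y = om c x := rfl
  rw [h3, Finset.sum_ite_eq, if_pos (Finset.mem_univ x)]
  field_simp
  norm_num

theorem P_rev (hG : Good c u ψ) (x y : V) : om c x * P c x y = om c y * P c y x := by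
  unfold P
  have h2 := om_pos hG x
  have h3 := om_pos hG y
  have h4 := hG.symm x y
  by_cases h : x = y
  · rw [h]
  · rw [if_neg h, if_neg (fun h' => h h'.symm), add_zero, add_zero, h4]
    field_simp

theorem pw_nonneg (hG : Good c u ψ) (s : ℕ) (x y : V) : 0 ≤ pw c s x y := by
  induction s generalizing x with
  | zero =>
    unfold pw
    split_ifs <;> norm_num
  | succ s ih =>
    rw [pw]
    exact Finset.sum_nonneg fun z _ => mul_nonneg (P_nonneg hG x z) (ih z)

theorem pw_sum (hG : Good c u ψ) (s : ℕ) (x : V) : ∑ y, pw c s x y = 1 := by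
  induction s generalizing x with
  | zero =>
    simp only [pw]
    rw [Finset.sum_ite_eq, if_pos (Finset.mem_univ x)]
  | succ s ih =>
    simp only [pw]
    rw [Finset.sum_comm]
    simp only [← Finset.mul_sum, ih, mul_one]
    exact P_sum hG x

theorem pw_add (c : V → V → ℝ) (s s' : ℕ) (x y : V) : pw c (s + s') x y = ∑ z, pw c s x z * pw c s' z y := by
  induction s generalizing x with
  | zero =>
    simp only [pw, Nat.zero_add, ite_mul, one_mul, zero_mul]
    rw [Finset.sum_ite_eq, if_pos (Finset.mem_univ x)]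
  | succ s ih =>
    rw [Nat.add_right_comm]
    simp only [pw, Finset.sum_mul]
    rw [Finset.sum_comm]
    refine Finset.sum_congr rfl fun w _ => ?_
    rw [ih, Finset.mul_sum]
    exact Finset.sum_congr rfl fun z _ => by ring

theorem pw_one (c : V → V → ℝ) (x y : V) : pw c 1 x y = P c x y := by
  simp only [pw, mul_ite, mul_one, mul_zero]
  rw [Finset.sum_ite_eq', if_pos (Finset.mem_univ y)]

theorem pw_rev (hG : Good c u ψ) (s : ℕ) (x y : V) : om c x * pw c s x y = om c y * pw c s y x := by
  induction s generalizing x y with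
  | zero =>
    simp only [pw]
    by_cases h : x = y
    · rw [h]
    · rw [if_neg h, if_neg (fun h' => h h'.symm), mul_zero, mul_zero]
  | succ s ih =>
    have h1 : pw c (s + 1) y x = ∑ z, pw c s y z * P c z x := by
      rw [pw_add]
      exact Finset.sum_congr rfl fun z _ => by rw [pw_one]
    have h2 : pw c (s + 1) x y = ∑ z, P c x z * pw c s z y := rfl
    rw [h1, h2, Finset.mul_sum, Finset.mul_sum]
    refine Finset.sum_congr rfl fun z _ => ?_
    calc om c x * (P c x z * pw c s z y) = (om c x * P c x z) * pw c s z y := by ring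
      _ = (om c z * P c z x) * pw c s z y := by rw [P_rev hG]
      _ = P c z x * (om c z * pw c s z y) := by ring
      _ = P c z x * (om c y * pw c s y z) := by rw [ih]
      _ = _ := by ring

theorem pw_stat (hG : Good c u ψ) (s : ℕ) (v : V) : ∑ x, om c x * pw c s x v = om c v := by
  rw [Finset.sum_congr rfl fun x _ => pw_rev hG s x v, ← Finset.mul_sum, pw_sum hG, mul_one]

theorem q_nonneg (hG : Good c u ψ) (t : ℕ) (T : Finset V) (v : V) : 0 ≤ q c t T v :=
  Finset.sum_nonneg fun s _ => Finset.sum_nonneg fun x _ => mul_nonneg (om_pos hG x).le (pw_nonneg hG s x v)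

/-- all visits in `v` of the walks which start anywhere -/
theorem q_univ (hG : Good c u ψ) (t : ℕ) (v : V) : q c t univ v = (t + 1) * om c v := by
  unfold q
  rw [Finset.sum_congr rfl fun s _ => pw_stat hG s v, Finset.sum_const, Finset.card_range, nsmul_eq_mul]
  push_cast
  ring

theorem q_mono (hG : Good c u ψ) (t : ℕ) {T T' : Finset V} (h : T ⊆ T') (v : V) : q c t T v ≤ q c t T' v :=
  Finset.sum_le_sum fun s _ => Finset.sum_le_sum_of_subset_of_nonneg h fun x _ _ =>
    mul_nonneg (om_pos hG x).le (pw_nonneg hG s x v)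

theorem q_le (hG : Good c u ψ) (t : ℕ) (T : Finset V) (v : V) : q c t T v ≤ (t + 1) * om c v := by
  rw [← q_univ hG]
  exact q_mono hG t (Finset.subset_univ T) v

theorem q_biUnion {ι : Type} (c : V → V → ℝ) (t : ℕ) (I : Finset ι) (T : ι → Finset V)
    (h : ∀ i ∈ I, ∀ j ∈ I, i ≠ j → Disjoint (T i) (T j)) (v : V) :
    ∑ i ∈ I, q c t (T i) v = q c t (I.biUnion T) v := by
  unfold q
  rw [Finset.sum_comm]
  refine Finset.sum_congr rfl fun s _ => ?_
  rw [Finset.sum_biUnion]
  intro i hi j hj hij
  exact h i hi j hj hij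

/-- visits of walks from disjoint sets add up -/
theorem q_disj {ι : Type} (hG : Good c u ψ) (t : ℕ) (I : Finset ι) (T : ι → Finset V)
    (h : ∀ i ∈ I, ∀ j ∈ I, i ≠ j → Disjoint (T i) (T j)) (v : V) :
    ∑ i ∈ I, q c t (T i) v ≤ (t + 1) * om c v := by
  rw [q_biUnion c t I T h]
  exact q_le hG t _ v

theorem q_self (hG : Good c u ψ) (t : ℕ) {T : Finset V} {v : V} (hv : v ∈ T) : om c v ≤ q c t T v := by
  unfold q
  have h1 : ∑ x ∈ T, om c x * pw c 0 x v ≤ ∑ s ∈ range (t + 1), ∑ x ∈ T, om c x * pw c s x v :=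
    Finset.single_le_sum (f := fun s => ∑ x ∈ T, om c x * pw c s x v)
      (fun s _ => Finset.sum_nonneg fun x _ => mul_nonneg (om_pos hG x).le (pw_nonneg hG s x v))
      (Finset.mem_range.mpr (Nat.succ_pos t))
  have h2 : om c v * pw c 0 v v ≤ ∑ x ∈ T, om c x * pw c 0 x v :=
    Finset.single_le_sum (f := fun x => om c x * pw c 0 x v)
      (fun x _ => mul_nonneg (om_pos hG x).le (pw_nonneg hG 0 x v)) hv
  have h3 : om c v * pw c 0 v v = om c v := by
    simp only [pw, if_true, mul_one]
  rw [h3] at h2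
  exact h2.trans h1

theorem q_tot (hG : Good c u ψ) (t : ℕ) (T : Finset V) : ∑ v, q c t T v = (t + 1) * vol c T := by
  unfold q
  rw [Finset.sum_comm]
  have h1 : ∀ s ∈ range (t + 1), ∑ v, ∑ x ∈ T, om c x * pw c s x v = vol c T := by
    intro s _
    rw [Finset.sum_comm]
    simp only [← Finset.mul_sum, pw_sum hG, mul_one]
    rfl
  rw [Finset.sum_congr rfl h1, Finset.sum_const, Finset.card_range, nsmul_eq_mul]
  push_cast
  ring

theorem qq_symm (hG : Good c u ψ) (t : ℕ) (A B : Finset V) : qq c t A B = qq c t B A := by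
  unfold qq q
  rw [Finset.sum_comm, Finset.sum_comm (s := A)]
  refine Finset.sum_congr rfl fun s _ => ?_
  rw [Finset.sum_comm]
  exact Finset.sum_congr rfl fun x _ => Finset.sum_congr rfl fun v _ => pw_rev hG s x v

theorem qq_nonneg (hG : Good c u ψ) (t : ℕ) (A B : Finset V) : 0 ≤ qq c t A B :=
  Finset.sum_nonneg fun v _ => q_nonneg hG t A v

theorem qq_self (hG : Good c u ψ) (t : ℕ) (T : Finset V) : vol c T ≤ qq c t T T :=
  Finset.sum_le_sum fun _ hv => q_self hG t hv

theorem qq_le (hG : Good c u ψ) (t : ℕ) (T A : Finset V) : qq c t T A ≤ (t + 1) * vol c T := by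
  rw [← q_tot hG]
  exact Finset.sum_le_sum_of_subset_of_nonneg (Finset.subset_univ A) fun v _ _ => q_nonneg hG t T v

theorem qq_disj {ι : Type} (hG : Good c u ψ) (t : ℕ) (I : Finset ι) (T : ι → Finset V)
    (h : ∀ i ∈ I, ∀ j ∈ I, i ≠ j → Disjoint (T i) (T j)) (A : Finset V) :
    ∑ i ∈ I, qq c t (T i) A ≤ (t + 1) * vol c A := by
  unfold qq vol
  rw [Finset.sum_comm, Finset.mul_sum]
  exact Finset.sum_le_sum fun v _ => q_disj hG t I T h v

/-- additivity in the first argument -/
theorem qq_biUnion {ι : Type} (c : V → V → ℝ) (t : ℕ) (I : Finset ι) (T : ι → Finset V)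
    (h : ∀ i ∈ I, ∀ j ∈ I, i ≠ j → Disjoint (T i) (T j)) (A : Finset V) :
    ∑ i ∈ I, qq c t (T i) A = qq c t (I.biUnion T) A := by
  unfold qq
  rw [Finset.sum_comm]
  exact Finset.sum_congr rfl fun v _ => q_biUnion c t I T h v

end Pool.Agent.NW
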