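import Pool.Agent.NW.Defs

set_option autoImplicit false

/-! # Cheeger inequality for a weighted graph (network part for MP_37d33d_gt) -/

namespace Pool.Agent.NW

open Finset

variable {V : Type} [Fintype V] [DecidableEq V] {c : V → V → ℝ} {u ψ : ℝ}

/-- coarea inequality for a non negative function whose support has at most half of the weight -/
theorem coarea (hG : Good c u ψ) : ∀ (n : ℕ) (φ : V → ℝ), (∀ x, 0 ≤ φ x) →
    (univ.filter (fun x => 0 < φ x)).card ≤ n → 2 * vol c (univ.filter (fun x => 0 < φ x)) ≤ vol c univ →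
    ψ * ∑ x, om c x * φ x ≤ 1 / 2 * ∑ x, ∑ y, c x y * |φ x - φ y| := by
  intro n
  induction n with
  | zero =>
    intro φ h0 hc _
    have hz : ∀ x, φ x = 0 := by
      intro x
      have hx : x ∉ univ.filter (fun x => 0 < φ x) := by
        rw [Finset.card_eq_zero.mp (Nat.le_zero.mp hc)]
        exact Finset.notMem_empty x
      simp only [mem_filter, mem_univ, true_and, not_lt] at hx
      exact le_antisymm hx (h0 x)
    simp [hz]
  | succ n ih =>
    intro φ h0 hc hv
    set S := univ.filter (fun x => 0 < φ x) with hS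
    by_cases hne : S.Nonempty
    · obtain ⟨x0, hx0, hmin⟩ := Finset.exists_min_image S φ hne
      set m := φ x0 with hm
      have hmpos : 0 < m := (Finset.mem_filter.mp hx0).2
      set φ' : V → ℝ := fun x => if x ∈ S then φ x - m else 0 with hφ'
      have h0' : ∀ x, 0 ≤ φ' x := by
        intro x
        simp only [hφ']
        split_ifs with hx
        · have := hmin x hx
          linarith
        · exact le_refl _
      have hsub : univ.filter (fun x => 0 < φ' x) ⊆ S.erase x0 := by
        intro x hx
        have hx' := (Finset.mem_filter.mp hx).2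
        simp only [hφ'] at hx'
        split_ifs at hx' with hxS
        · rw [Finset.mem_erase]
          refine ⟨?_, hxS⟩
          rintro rfl
          simp [hm] at hx'
        · exact absurd hx' (lt_irrefl _)
      have hcard : (univ.filter (fun x => 0 < φ' x)).card ≤ n := by
        have h1 := Finset.card_le_card hsub
        rw [Finset.card_erase_of_mem hx0] at h1
        omega
      have hvol : 2 * vol c (univ.filter (fun x => 0 < φ' x)) ≤ vol c univ := by
        have h1 : vol c (univ.filter (fun x => 0 < φ' x)) ≤ vol c S := by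
          unfold vol
          refine Finset.sum_le_sum_of_subset_of_nonneg (hsub.trans (Finset.erase_subset _ _)) ?_
          intro x _ _
          exact le_trans zero_le_one (hG.one_le x)
        linarith
      have hih := ih φ' h0' hcard hvol
      have hcut := hG.cond S hv
      -- left side
      have hL : ∑ x, om c x * φ x = ∑ x, om c x * φ' x + m * vol c S := by
        have h1 : vol c S = ∑ x, if x ∈ S then om c x else 0 := by
          unfold vol
          rw [Finset.sum_ite_mem, Finset.univ_inter]
        rw [h1, Finset.mul_sum, ← Finset.sum_add_distrib]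
        refine Finset.sum_congr rfl (fun x _ => ?_)
        by_cases hx : x ∈ S
        · simp only [hφ', hx, if_true]
          ring
        · have hx' : φ x = 0 := by
            have : ¬ 0 < φ x := by
              intro h
              exact hx (Finset.mem_filter.mpr ⟨Finset.mem_univ _, h⟩)
            exact le_antisymm (not_lt.mp this) (h0 x)
          simp [hφ', hx, hx']
      have hR : ∑ x, ∑ y, c x y * |φ x - φ y| =
          ∑ x, ∑ y, c x y * |φ' x - φ' y| + 2 * (m * cut c S) := by
        have h1 : cut c S = ∑ x, ∑ y, (if x ∈ S ∧ y ∉ S then c x y else 0) := by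
          unfold cut
          rw [← Finset.sum_subset (Finset.subset_univ S)]
          · refine Finset.sum_congr rfl (fun x hx => ?_)
            rw [← Finset.sum_subset (Finset.subset_univ Sᶜ)]
            · refine Finset.sum_congr rfl (fun y hy => ?_)
              rw [if_pos ⟨hx, Finset.mem_compl.mp hy⟩]
            · intro y _ hy
              rw [if_neg]
              intro h
              exact hy (Finset.mem_compl.mpr h.2)
          · intro x _ hx
            refine Finset.sum_eq_zero (fun y _ => ?_)
            rw [if_neg]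
            intro h
            exact hx h.1
        have h2 : cut c S = ∑ x, ∑ y, (if y ∈ S ∧ x ∉ S then c x y else 0) := by
          rw [h1, Finset.sum_comm]
          refine Finset.sum_congr rfl (fun x _ => Finset.sum_congr rfl (fun y _ => ?_))
          rw [hG.symm]
        have h3 : 2 * (m * cut c S) = ∑ x, ∑ y, (m * (if x ∈ S ∧ y ∉ S then c x y else 0)
            + m * (if y ∈ S ∧ x ∉ S then c x y else 0)) := by
          have : 2 * (m * cut c S) = m * cut c S + m * cut c S := by ring
          rw [this]
          nth_rewrite 1 [h1]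
          rw [h2, Finset.mul_sum, Finset.mul_sum, ← Finset.sum_add_distrib]
          refine Finset.sum_congr rfl (fun x _ => ?_)
          rw [Finset.mul_sum, Finset.mul_sum, ← Finset.sum_add_distrib]
        rw [h3, ← Finset.sum_add_distrib]
        refine Finset.sum_congr rfl (fun x _ => ?_)
        rw [← Finset.sum_add_distrib]
        refine Finset.sum_congr rfl (fun y _ => ?_)
        have hz : ∀ x, x ∉ S → φ x = 0 := by
          intro x hx
          have : ¬ 0 < φ x := by
            intro h
            exact hx (Finset.mem_filter.mpr ⟨Finset.mem_univ _, h⟩)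
          exact le_antisymm (not_lt.mp this) (h0 x)
        by_cases hx : x ∈ S <;> by_cases hy : y ∈ S
        · simp only [hφ', hx, hy, if_true, not_true, and_false, if_false, mul_zero, add_zero]
          congr 2
          ring
        · have hy0 := hz y hy
          have hge := hmin x hx
          simp only [hφ', hx, hy, if_true, not_false_iff, and_true, if_false, hy0, sub_zero, false_and, mul_zero,
            add_zero]
          rw [abs_of_nonneg (h0 x), abs_of_nonneg (by linarith)]
          ring
        · have hx0' := hz x hx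
          have hge := hmin y hy
          simp only [hφ', hx, hy, if_true, not_false_iff, and_true, if_false, hx0', zero_sub, false_and, mul_zero,
            zero_add, abs_neg]
          rw [abs_of_nonneg (h0 y), abs_of_nonneg (by linarith)]
          ring
        · simp [hφ', hx, hy, hz x hx, hz y hy]
      rw [hL, hR]
      nlinarith [mul_le_mul_of_nonneg_left hcut hmpos.le]
    · have hz : ∀ x, φ x = 0 := by
        intro x
        have hx : x ∉ S := fun h => hne ⟨x, h⟩
        have : ¬ 0 < φ x := by
          intro h
          exact hx (Finset.mem_filter.mpr ⟨Finset.mem_univ _, h⟩)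
        exact le_antisymm (not_lt.mp this) (h0 x)
      simp [hz]

/-- Cheeger inequality for a non negative function whose support has at most half of the weight -/
theorem cheeger_pos (hG : Good c u ψ) (g : V → ℝ) (h0 : ∀ x, 0 ≤ g x)
    (hv : 2 * vol c (univ.filter (fun x => 0 < g x)) ≤ vol c univ) :
    ψ ^ 2 / 2 * ∑ x, om c x * g x ^ 2 ≤ 1 / 2 * ∑ x, ∑ y, c x y * (g x - g y) ^ 2 := by
  have hfil : univ.filter (fun x => 0 < g x ^ 2) = univ.filter (fun x => 0 < g x) := by
    ext x
    simp only [mem_filter, mem_univ, true_and]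
    constructor
    · intro h
      rcases (h0 x).lt_or_eq with h' | h'
      · exact h'
      · rw [← h'] at h
        simp at h
    · intro h
      positivity
  have h1 := coarea hG _ (fun x => g x ^ 2) (fun x => sq_nonneg _) (le_refl _) (by rw [hfil]; exact hv)
  set N := ∑ x, om c x * g x ^ 2 with hN
  set E := 1 / 2 * ∑ x, ∑ y, c x y * (g x - g y) ^ 2 with hE
  have hN0 : 0 ≤ N := Finset.sum_nonneg (fun x _ =>
    mul_nonneg (le_trans zero_le_one (hG.one_le x)) (sq_nonneg _))
  have hE0 : 0 ≤ E := by
    refine mul_nonneg (by norm_num) (Finset.sum_nonneg (fun x _ => Finset.sum_nonneg (fun y _ => ?_)))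
    exact mul_nonneg (hG.nn x y) (sq_nonneg _)
  -- the double sum of (g x + g y)^2
  have hF : 1 / 2 * ∑ x, ∑ y, c x y * (g x + g y) ^ 2 = 2 * N - E := by
    have hx : ∑ x, ∑ y, c x y * g x ^ 2 = N := by
      rw [hN]
      refine Finset.sum_congr rfl (fun x _ => ?_)
      unfold om
      rw [Finset.sum_mul]
    have hy : ∑ x, ∑ y, c x y * g y ^ 2 = N := by
      rw [← hx, Finset.sum_comm]
      refine Finset.sum_congr rfl (fun x _ => Finset.sum_congr rfl (fun y _ => ?_))
      rw [hG.symm]
    have h3 : ∑ x, ∑ y, c x y * (g x + g y) ^ 2 =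
        2 * ∑ x, ∑ y, c x y * g x ^ 2 + 2 * ∑ x, ∑ y, c x y * g y ^ 2
          - ∑ x, ∑ y, c x y * (g x - g y) ^ 2 := by
      rw [Finset.mul_sum, Finset.mul_sum, ← Finset.sum_add_distrib, ← Finset.sum_sub_distrib]
      refine Finset.sum_congr rfl (fun x _ => ?_)
      rw [Finset.mul_sum, Finset.mul_sum, ← Finset.sum_add_distrib, ← Finset.sum_sub_distrib]
      refine Finset.sum_congr rfl (fun y _ => ?_)
      ring
    rw [h3, hx, hy, hE]
    ring
  -- Cauchy-Schwarz
  have hCS : (1 / 2 * ∑ x, ∑ y, c x y * |g x ^ 2 - g y ^ 2|) ^ 2 ≤ E * (2 * N - E) := by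
    rw [← hF, hE]
    have h4 : ∑ x, ∑ y, c x y * |g x ^ 2 - g y ^ 2| =
        ∑ p : V × V, (Real.sqrt (c p.1 p.2) * |g p.1 - g p.2|) * (Real.sqrt (c p.1 p.2) * (g p.1 + g p.2)) := by
      rw [Fintype.sum_prod_type]
      refine Finset.sum_congr rfl (fun x _ => Finset.sum_congr rfl (fun y _ => ?_))
      have h5 : |g x ^ 2 - g y ^ 2| = |g x - g y| * (g x + g y) := by
        rw [show g x ^ 2 - g y ^ 2 = (g x - g y) * (g x + g y) by ring, abs_mul,
          abs_of_nonneg (add_nonneg (h0 x) (h0 y))]
      rw [h5]
      have h6 := Real.mul_self_sqrt (hG.nn x y)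
      calc c x y * (|g x - g y| * (g x + g y))
          = (Real.sqrt (c x y) * Real.sqrt (c x y)) * (|g x - g y| * (g x + g y)) := by rw [h6]
        _ = _ := by ring
    have h7 := Finset.sum_mul_sq_le_sq_mul_sq (univ : Finset (V × V))
      (fun p => Real.sqrt (c p.1 p.2) * |g p.1 - g p.2|) (fun p => Real.sqrt (c p.1 p.2) * (g p.1 + g p.2))
    have h8 : ∑ p : V × V, (Real.sqrt (c p.1 p.2) * |g p.1 - g p.2|) ^ 2 = ∑ x, ∑ y, c x y * (g x - g y) ^ 2 := by
      rw [Fintype.sum_prod_type]
      refine Finset.sum_congr rfl (fun x _ => Finset.sum_congr rfl (fun y _ => ?_))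
      rw [mul_pow, Real.sq_sqrt (hG.nn x y), sq_abs]
    have h9 : ∑ p : V × V, (Real.sqrt (c p.1 p.2) * (g p.1 + g p.2)) ^ 2 = ∑ x, ∑ y, c x y * (g x + g y) ^ 2 := by
      rw [Fintype.sum_prod_type]
      refine Finset.sum_congr rfl (fun x _ => Finset.sum_congr rfl (fun y _ => ?_))
      rw [mul_pow, Real.sq_sqrt (hG.nn x y)]
    rw [h8, h9] at h7
    rw [h4]
    nlinarith [h7]
  rcases hN0.lt_or_eq with hNp | hNz
  · have h10 : (ψ * N) ^ 2 ≤ E * (2 * N - E) :=
      le_trans (pow_le_pow_left₀ (mul_nonneg hG.ψpos.le hN0) h1 2) hCS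
    have h11 : ψ ^ 2 * N * N ≤ 2 * E * N := by nlinarith
    have h12 := le_of_mul_le_mul_right h11 hNp
    linarith
  · rw [← hNz]
    simpa using hE0

/-- Cheeger inequality -/
theorem cheeger (hG : Good c u ψ) (f : V → ℝ) (hf : ∑ x, om c x * f x = 0) :
    ψ ^ 2 / 2 * ∑ x, om c x * f x ^ 2 ≤ 1 / 2 * ∑ x, ∑ y, c x y * (f x - f y) ^ 2 := by
  rcases isEmpty_or_nonempty V with hV | hV
  · simp
  have hW0 : 0 ≤ vol c univ := Finset.sum_nonneg (fun x _ => le_trans zero_le_one (hG.one_le x))
  -- a median
  obtain ⟨m, hm1, hm2⟩ : ∃ m : ℝ, 2 * vol c (univ.filter (fun x => m < f x)) ≤ vol c univ ∧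
      2 * vol c (univ.filter (fun x => f x < m)) ≤ vol c univ := by
    set S := univ.filter (fun x => vol c univ ≤ 2 * vol c (univ.filter (fun y => f y ≤ f x))) with hS
    have hSne : S.Nonempty := by
      obtain ⟨x1, -, hx1⟩ := Finset.exists_max_image (univ : Finset V) f Finset.univ_nonempty
      refine ⟨x1, Finset.mem_filter.mpr ⟨Finset.mem_univ _, ?_⟩⟩
      have : univ.filter (fun y => f y ≤ f x1) = univ :=
        Finset.filter_true_of_mem (fun y _ => hx1 y (Finset.mem_univ _))
      rw [this]
      linarith
    obtain ⟨x0, hx0, hmin⟩ := Finset.exists_min_image S f hSne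
    refine ⟨f x0, ?_, ?_⟩
    · have h1 : vol c (univ.filter (fun x => f x0 < f x)) + vol c (univ.filter (fun y => f y ≤ f x0)) =
          vol c univ := by
        unfold vol
        have := Finset.sum_filter_add_sum_filter_not (univ : Finset V) (fun x => f x0 < f x) (fun x => om c x)
        simpa only [not_lt] using this
      have h2 := (Finset.mem_filter.mp hx0).2
      linarith
    · by_cases hne : (univ.filter (fun x => f x < f x0)).Nonempty
      · obtain ⟨x1, hx1, hmax⟩ := Finset.exists_max_image _ f hne
        have hx1' := (Finset.mem_filter.mp hx1).2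
        have h3 : x1 ∉ S := fun h => absurd (hmin x1 h) (not_le.mpr hx1')
        have h4 : ¬ vol c univ ≤ 2 * vol c (univ.filter (fun y => f y ≤ f x1)) := by
          intro h
          exact h3 (Finset.mem_filter.mpr ⟨Finset.mem_univ _, h⟩)
        have h5 : vol c (univ.filter (fun x => f x < f x0)) ≤ vol c (univ.filter (fun y => f y ≤ f x1)) := by
          unfold vol
          refine Finset.sum_le_sum_of_subset_of_nonneg ?_ (fun x _ _ => le_trans zero_le_one (hG.one_le x))
          intro y hy
          exact Finset.mem_filter.mpr ⟨Finset.mem_univ _, hmax y hy⟩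
        push Not at h4
        linarith
      · rw [Finset.not_nonempty_iff_eq_empty.mp hne]
        simpa [vol] using hW0
  set g1 : V → ℝ := fun x => max (f x - m) 0 with hg1
  set g2 : V → ℝ := fun x => max (m - f x) 0 with hg2
  have e1 : univ.filter (fun x => 0 < g1 x) = univ.filter (fun x => m < f x) := by
    ext x
    simp [hg1]
  have e2 : univ.filter (fun x => 0 < g2 x) = univ.filter (fun x => f x < m) := by
    ext x
    simp [hg2]
  have c1 := cheeger_pos hG g1 (fun x => le_max_right _ _) (by rw [e1]; exact hm1)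
  have c2 := cheeger_pos hG g2 (fun x => le_max_right _ _) (by rw [e2]; exact hm2)
  have s1 : ∑ x, om c x * f x ^ 2 ≤ ∑ x, om c x * g1 x ^ 2 + ∑ x, om c x * g2 x ^ 2 := by
    have h1 : ∀ x, g1 x ^ 2 + g2 x ^ 2 = (f x - m) ^ 2 := by
      intro x
      rcases le_total (f x) m with h | h
      · simp only [hg1, hg2]
        rw [max_eq_right (by linarith), max_eq_left (by linarith)]
        ring
      · simp only [hg1, hg2]
        rw [max_eq_left (by linarith), max_eq_right (by linarith)]
        ring
    have h2 : ∑ x, om c x * g1 x ^ 2 + ∑ x, om c x * g2 x ^ 2 =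
        ∑ x, om c x * f x ^ 2 - 2 * m * ∑ x, om c x * f x + m ^ 2 * vol c univ := by
      unfold vol
      rw [Finset.mul_sum, Finset.mul_sum, ← Finset.sum_add_distrib, ← Finset.sum_sub_distrib,
        ← Finset.sum_add_distrib]
      refine Finset.sum_congr rfl (fun x _ => ?_)
      rw [← mul_add, h1]
      ring
    rw [h2, hf]
    nlinarith [mul_nonneg (sq_nonneg m) hW0]
  have s2 : ∑ x, ∑ y, c x y * (g1 x - g1 y) ^ 2 + ∑ x, ∑ y, c x y * (g2 x - g2 y) ^ 2 ≤
      ∑ x, ∑ y, c x y * (f x - f y) ^ 2 := by
    rw [← Finset.sum_add_distrib]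
    refine Finset.sum_le_sum (fun x _ => ?_)
    rw [← Finset.sum_add_distrib]
    refine Finset.sum_le_sum (fun y _ => ?_)
    rw [← mul_add]
    refine mul_le_mul_of_nonneg_left ?_ (hG.nn x y)
    simp only [hg1, hg2]
    rcases le_total (f x) m with h | h <;> rcases le_total (f y) m with h' | h'
    · rw [max_eq_right (by linarith), max_eq_right (by linarith), max_eq_left (by linarith),
        max_eq_left (by linarith)]
      nlinarith
    · rw [max_eq_right (by linarith), max_eq_left (by linarith), max_eq_left (by linarith),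
        max_eq_right (by linarith)]
      nlinarith [mul_nonneg (sub_nonneg.mpr h) (sub_nonneg.mpr h')]
    · rw [max_eq_left (by linarith), max_eq_right (by linarith), max_eq_right (by linarith),
        max_eq_left (by linarith)]
      nlinarith [mul_nonneg (sub_nonneg.mpr h) (sub_nonneg.mpr h')]
    · rw [max_eq_left (by linarith), max_eq_left (by linarith), max_eq_right (by linarith),
        max_eq_right (by linarith)]
      nlinarith
  have hψ : 0 ≤ ψ ^ 2 / 2 := by positivity
  calc ψ ^ 2 / 2 * ∑ x, om c x * f x ^ 2
      ≤ ψ ^ 2 / 2 * (∑ x, om c x * g1 x ^ 2 + ∑ x, om c x * g2 x ^ 2) := mul_le_mul_of_nonneg_left s1 hψ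
    _ ≤ 1 / 2 * ∑ x, ∑ y, c x y * (g1 x - g1 y) ^ 2 + 1 / 2 * ∑ x, ∑ y, c x y * (g2 x - g2 y) ^ 2 := by
        rw [mul_add]
        exact add_le_add c1 c2
    _ ≤ 1 / 2 * ∑ x, ∑ y, c x y * (f x - f y) ^ 2 := by
        rw [← mul_add]
        exact mul_le_mul_of_nonneg_left s2 (by norm_num)

end Pool.Agent.NW
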