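import Pool.Agent.NW.N0Facts
import Pool.Agent.NW.N1Cheeger

set_option autoImplicit false

/-! # Mixing of the lazy walk (network part for MP_37d33d_gt) -/

namespace Pool.Agent.NW

open Finset

variable {V : Type} [Fintype V] [DecidableEq V] {c : V → V → ℝ} {u ψ : ℝ}

/-- one step of the lazy walk contracts the square norm of a function of mean zero -/
theorem contract (hG : Good c u ψ) (f : V → ℝ) (hf : ∑ x, om c x * f x = 0) :
    ∑ x, om c x * (∑ y, P c x y * f y) ^ 2 ≤ (1 - ψ ^ 2 / 4) * ∑ x, om c x * f x ^ 2 := by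
  -- `K f x` = mean of `f` over the neighbours of `x`
  set k : V → ℝ := fun x => (∑ y, c x y * f y) / om c x with hk
  have hom := om_pos hG
  have hP : ∀ x, ∑ y, P c x y * f y = (f x + k x) / 2 := by
    intro x
    have h1 : ∀ y, P c x y * f y = c x y * f y / (2 * om c x) + (if x = y then f y / 2 else 0) := by
      intro y
      unfold P
      split_ifs <;> ring
    rw [Finset.sum_congr rfl (fun y _ => h1 y), Finset.sum_add_distrib, ← Finset.sum_div, Finset.sum_ite_eq]
    simp only [mem_univ, if_true, hk]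
    have := hom x
    field_simp
    ring
  -- `∑ om k^2 ≤ ∑ om f^2`
  have hK : ∑ x, om c x * k x ^ 2 ≤ ∑ x, om c x * f x ^ 2 := by
    have h1 : ∀ x, om c x * k x ^ 2 ≤ ∑ y, c x y * f y ^ 2 := by
      intro x
      have h2 : (∑ y, c x y * f y) ^ 2 ≤ (∑ y, c x y) * ∑ y, c x y * f y ^ 2 := by
        have h3 := Finset.sum_mul_sq_le_sq_mul_sq (univ : Finset V)
          (fun y => Real.sqrt (c x y)) (fun y => Real.sqrt (c x y) * f y)
        have h4 : ∑ y, Real.sqrt (c x y) * (Real.sqrt (c x y) * f y) = ∑ y, c x y * f y := by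
          refine Finset.sum_congr rfl (fun y _ => ?_)
          rw [← mul_assoc, Real.mul_self_sqrt (hG.nn x y)]
        have h5 : ∑ y, Real.sqrt (c x y) ^ 2 = ∑ y, c x y :=
          Finset.sum_congr rfl (fun y _ => Real.sq_sqrt (hG.nn x y))
        have h6 : ∑ y, (Real.sqrt (c x y) * f y) ^ 2 = ∑ y, c x y * f y ^ 2 := by
          refine Finset.sum_congr rfl (fun y _ => ?_)
          rw [mul_pow, Real.sq_sqrt (hG.nn x y)]
        rw [h4, h5, h6] at h3
        exact h3
      have h7 : om c x * k x ^ 2 = (∑ y, c x y * f y) ^ 2 / om c x := by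
        simp only [hk]
        have := hom x
        field_simp
      rw [h7, div_le_iff₀ (hom x)]
      calc (∑ y, c x y * f y) ^ 2 ≤ (∑ y, c x y) * ∑ y, c x y * f y ^ 2 := h2
        _ = (∑ y, c x y * f y ^ 2) * om c x := by unfold om; ring
    refine le_trans (Finset.sum_le_sum (fun x _ => h1 x)) ?_
    rw [Finset.sum_comm]
    refine le_of_eq (Finset.sum_congr rfl (fun y _ => ?_))
    unfold om
    rw [Finset.sum_mul]
    exact Finset.sum_congr rfl (fun x _ => by rw [hG.symm])
  -- Dirichlet form
  have hE : 1 / 2 * ∑ x, ∑ y, c x y * (f x - f y) ^ 2 =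
      ∑ x, om c x * f x ^ 2 - ∑ x, om c x * (f x * k x) := by
    have hx : ∑ x, ∑ y, c x y * f x ^ 2 = ∑ x, om c x * f x ^ 2 := by
      refine Finset.sum_congr rfl (fun x _ => ?_)
      unfold om
      rw [Finset.sum_mul]
    have hy : ∑ x, ∑ y, c x y * f y ^ 2 = ∑ x, om c x * f x ^ 2 := by
      rw [← hx, Finset.sum_comm]
      refine Finset.sum_congr rfl (fun x _ => Finset.sum_congr rfl (fun y _ => ?_))
      rw [hG.symm]
    have hxy : ∑ x, ∑ y, c x y * (f x * f y) = ∑ x, om c x * (f x * k x) := by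
      refine Finset.sum_congr rfl (fun x _ => ?_)
      have h1 : om c x * (f x * k x) = f x * ∑ y, c x y * f y := by
        simp only [hk]
        have := hom x
        field_simp
      rw [h1, Finset.mul_sum]
      exact Finset.sum_congr rfl (fun y _ => by ring)
    have h3 : ∑ x, ∑ y, c x y * (f x - f y) ^ 2 =
        ∑ x, ∑ y, c x y * f x ^ 2 + ∑ x, ∑ y, c x y * f y ^ 2 - 2 * ∑ x, ∑ y, c x y * (f x * f y) := by
      rw [Finset.mul_sum, ← Finset.sum_add_distrib, ← Finset.sum_sub_distrib]
      refine Finset.sum_congr rfl (fun x _ => ?_)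
      rw [Finset.mul_sum, ← Finset.sum_add_distrib, ← Finset.sum_sub_distrib]
      refine Finset.sum_congr rfl (fun y _ => ?_)
      ring
    rw [h3, hx, hy, hxy]
    ring
  have hch := cheeger hG f hf
  rw [hE] at hch
  have hL : ∑ x, om c x * (∑ y, P c x y * f y) ^ 2 =
      1 / 4 * ∑ x, om c x * f x ^ 2 + 1 / 2 * ∑ x, om c x * (f x * k x) + 1 / 4 * ∑ x, om c x * k x ^ 2 := by
    rw [Finset.mul_sum, Finset.mul_sum, Finset.mul_sum, ← Finset.sum_add_distrib, ← Finset.sum_add_distrib]
    refine Finset.sum_congr rfl (fun x _ => ?_)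
    rw [hP x]
    ring
  rw [hL]
  nlinarith [hK, hch]

/-- mixing of the lazy walk -/
theorem mixing (hG : Good c u ψ) (t : ℕ) (ht : vol c univ ^ 2 * (1 - ψ ^ 2 / 4) ^ t ≤ 1 / 4) (x z : V) :
    om c z / (2 * vol c univ) ≤ pw c t x z := by
  set W := vol c univ with hW
  have hom := om_pos hG
  have hW1 : 1 ≤ W := le_trans (hG.one_le x) (om_le_W hG x)
  have hW0 : 0 < W := lt_of_lt_of_le one_pos hW1
  have hz := hom z
  have hρ : 0 ≤ 1 - ψ ^ 2 / 4 := by
    have h1 := hG.ψle
    have h2 := hG.ψpos
    nlinarith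
  -- the centred density
  set f : ℕ → V → ℝ := fun s x => pw c s x z / om c z - 1 / W with hf
  have hmean : ∀ s, ∑ x, om c x * f s x = 0 := by
    intro s
    have h1 : ∀ x, om c x * f s x = om c x * pw c s x z / om c z - om c x / W := by
      intro x
      simp only [hf]
      ring
    rw [Finset.sum_congr rfl (fun x _ => h1 x), Finset.sum_sub_distrib, ← Finset.sum_div, ← Finset.sum_div,
      pw_stat hG]
    have h2 : ∑ x, om c x = W := rfl
    rw [h2, div_self hz.ne', div_self hW0.ne', sub_self]
  have hstep : ∀ s x, f (s + 1) x = ∑ y, P c x y * f s y := by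
    intro s x
    simp only [hf, pw]
    have h1 : ∀ y, P c x y * (pw c s y z / om c z - 1 / W) =
        P c x y * pw c s y z / om c z - P c x y * (1 / W) := by
      intro y
      ring
    rw [Finset.sum_congr rfl (fun y _ => h1 y), Finset.sum_sub_distrib, ← Finset.sum_div, ← Finset.sum_mul,
      P_sum hG, one_mul]
  have hnorm : ∀ s, ∑ x, om c x * f s x ^ 2 ≤ (1 - ψ ^ 2 / 4) ^ s := by
    intro s
    induction s with
    | zero =>
      rw [pow_zero]
      have h1 : ∀ x, om c x * f 0 x ^ 2 =
          (if x = z then 1 / om c z - 2 / W else 0) + om c x / W ^ 2 := by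
        intro x
        simp only [hf, pw]
        by_cases h : x = z
        · subst h
          simp only [if_true]
          have := hom x
          field_simp
          ring
        · simp only [h, if_false]
          field_simp
          ring
      rw [Finset.sum_congr rfl (fun x _ => h1 x), Finset.sum_add_distrib, Finset.sum_ite_eq',
        ← Finset.sum_div]
      have h2 : ∑ x, om c x = W := rfl
      rw [h2]
      simp only [mem_univ, if_true]
      have h3 : 1 / om c z ≤ 1 := by
        rw [div_le_one hz]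
        exact hG.one_le z
      have h4 : W / W ^ 2 = 1 / W := by
        field_simp
      rw [h4]
      have h5 : 0 ≤ 1 / W := by positivity
      have h6 : 2 / W = 2 * (1 / W) := by ring
      rw [h6]
      linarith
    | succ s ih =>
      have h1 := contract hG (f s) (hmean s)
      have h2 : ∑ x, om c x * f (s + 1) x ^ 2 = ∑ x, om c x * (∑ y, P c x y * f s y) ^ 2 :=
        Finset.sum_congr rfl (fun x _ => by rw [hstep s x])
      rw [h2, pow_succ, mul_comm ((1 - ψ ^ 2 / 4) ^ s)]
      exact le_trans h1 (mul_le_mul_of_nonneg_left ih hρ)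
  have hx : f t x ^ 2 ≤ (1 - ψ ^ 2 / 4) ^ t := by
    refine le_trans ?_ (hnorm t)
    have h1 := Finset.single_le_sum (f := fun y => om c y * f t y ^ 2)
      (fun y _ => mul_nonneg (hom y).le (sq_nonneg _)) (Finset.mem_univ x)
    have h2 : f t x ^ 2 ≤ om c x * f t x ^ 2 := by
      have := hG.one_le x
      nlinarith [sq_nonneg (f t x)]
    exact le_trans h2 h1
  have hx2 : (W * f t x) ^ 2 ≤ (1 / 2) ^ 2 := by
    rw [mul_pow]
    calc W ^ 2 * f t x ^ 2 ≤ W ^ 2 * (1 - ψ ^ 2 / 4) ^ t := mul_le_mul_of_nonneg_left hx (sq_nonneg _)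
      _ ≤ 1 / 4 := ht
      _ = (1 / 2) ^ 2 := by norm_num
  have hx3 : -(1 / 2) ≤ W * f t x := by
    have := abs_le_of_sq_le_sq hx2 (by norm_num)
    exact (abs_le.mp (abs_le_of_sq_le_sq hx2 (by norm_num))).1
  have hx4 : W * f t x = W * pw c t x z / om c z - 1 := by
    simp only [hf]
    field_simp
  rw [hx4] at hx3
  have hx5 : 1 / 2 ≤ W * pw c t x z / om c z := by linarith
  rw [le_div_iff₀ hz] at hx5
  rw [div_le_iff₀ (by positivity)]
  linarith

end Pool.Agent.NW
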